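import Pool.Agent.Helper93.L2.Defs

/-! # LN2-R2b: Stokes for `dbar`, from cut-off functions -/

namespace Pool.Agent.Helper66.L2

open MeasureTheory Pool.Agent.Helper93.L2

theorem om_nonneg (x : ℂ) : 0 ≤ om x := by
  unfold om; positivity

theorem wt_nonneg (P : Finset ℂ) (z : ℂ) : 0 ≤ wt P z :=
  Finset.sum_nonneg fun _ _ => om_nonneg _

/-- the integral of a directional derivative of a `C^1` function with compact support is zero -/
theorem integral_fderiv_zero (G : ℂ → ℂ) (hG : ContDiff ℝ 1 G) (hc : HasCompactSupport G) (v : ℂ) :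
    Integrable (fun z => fderiv ℝ G z v) ∧ ∫ z, fderiv ℝ G z v = 0 := by
  have hcont : Continuous (fderiv ℝ G) := hG.continuous_fderiv (by norm_num)
  have hcv : Continuous (fun z => fderiv ℝ G z v) := hcont.clm_apply continuous_const
  have hcs : HasCompactSupport (fun z => fderiv ℝ G z v) := by
    have := hc.fderiv (𝕜 := ℝ)
    exact this.comp_left (g := fun L : ℂ →L[ℝ] ℂ => L v) (by simp)
  have hi : Integrable (fun z => fderiv ℝ G z v) := hcv.integrable_of_hasCompactSupport hcs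
  refine ⟨hi, ?_⟩
  have hGi : Integrable G := hG.continuous.integrable_of_hasCompactSupport hc
  have h := integral_mul_fderiv_eq_neg_fderiv_mul_of_integrable (μ := volume) (𝕜 := ℂ)
    (f := fun _ : ℂ => (1 : ℂ)) (g := G) (v := v) (by simp) (by simpa using hi) (by simpa using hGi)
    (fun x _ => differentiableAt_const _) (fun x _ => (hG.differentiable (by norm_num)) x)
  simpa using h

theorem dbar_cont (G : ℂ → ℂ) (hG : ContDiff ℝ 1 G) (hc : HasCompactSupport G) :
    Integrable (dbar G) ∧ ∫ z, dbar G z = 0 := by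
  obtain ⟨h1, h1'⟩ := integral_fderiv_zero G hG hc 1
  obtain ⟨h2, h2'⟩ := integral_fderiv_zero G hG hc Complex.I
  have h3 : Integrable (fun z => Complex.I * fderiv ℝ G z Complex.I) := h2.const_mul _
  constructor
  · exact (h1.add h3).div_const 2
  · have : ∫ z, dbar G z = ((∫ z, fderiv ℝ G z 1) + ∫ z, Complex.I * fderiv ℝ G z Complex.I) / 2 := by
      rw [← integral_add h1 h3, ← integral_div]; rfl
    rw [this, h1', integral_const_mul, h2']; simp

/-- `dbar (η F) = η dbar F + F dbar η` with a bound for the second term -/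
theorem dbar_mul_bound (η : ℂ → ℝ) (F : ℂ → ℂ) (z : ℂ) (hη : DifferentiableAt ℝ η z)
    (hF : DifferentiableAt ℝ F z) :
    ‖dbar (fun w => ((η w : ℝ) : ℂ) * F w) z - (η z : ℂ) * dbar F z‖ ≤
      ‖F z‖ * ‖fderiv ℝ η z‖ := by
  have hη' : HasFDerivAt (fun w => ((η w : ℝ) : ℂ)) (Complex.ofRealCLM.comp (fderiv ℝ η z)) z :=
    Complex.ofRealCLM.hasFDerivAt.comp z hη.hasFDerivAt
  have hm := (hη'.mul hF.hasFDerivAt).fderiv
  have e : dbar (fun w => ((η w : ℝ) : ℂ) * F w) z - (η z : ℂ) * dbar F z =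
      F z * (((fderiv ℝ η z 1 : ℝ) : ℂ) + Complex.I * ((fderiv ℝ η z Complex.I : ℝ) : ℂ)) / 2 := by
    unfold dbar
    rw [show (fun w => ((η w : ℝ) : ℂ) * F w) = ((fun w => ((η w : ℝ) : ℂ)) * F) from rfl, hm]
    simp
    ring
  rw [e, norm_div, norm_mul]
  have h1 : ‖((fderiv ℝ η z 1 : ℝ) : ℂ)‖ ≤ ‖fderiv ℝ η z‖ := by
    rw [Complex.norm_real]
    simpa using (fderiv ℝ η z).le_opNorm 1
  have h2 : ‖Complex.I * ((fderiv ℝ η z Complex.I : ℝ) : ℂ)‖ ≤ ‖fderiv ℝ η z‖ := by
    rw [norm_mul, Complex.norm_I, one_mul, Complex.norm_real]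
    simpa using (fderiv ℝ η z).le_opNorm Complex.I
  have h3 : ‖((fderiv ℝ η z 1 : ℝ) : ℂ) + Complex.I * ((fderiv ℝ η z Complex.I : ℝ) : ℂ)‖ ≤
      2 * ‖fderiv ℝ η z‖ := (norm_add_le _ _).trans (by linarith)
  have h4 := mul_le_mul_of_nonneg_left h3 (norm_nonneg (F z))
  have h5 : ‖(2 : ℂ)‖ = 2 := by simp
  rw [h5, div_le_iff₀ (by norm_num)]
  linarith

theorem stokes_aux (P : Finset ℂ) (η : ℕ → ℂ → ℝ) (h1 : ∀ n, ContDiff ℝ 1 (η n))
    (h2 : ∀ n, HasCompactSupport (η n)) (h3 : ∀ n z, 0 ≤ η n z ∧ η n z ≤ 1)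
    (h4 : ∀ n, ∀ p ∈ P, ∀ᶠ z in nhds p, η n z = 0)
    (h5 : ∀ z ∉ P, Filter.Tendsto (fun n => η n z) Filter.atTop (nhds 1))
    (h6 : Filter.Tendsto (fun n => ∫ z, wt P z * ‖fderiv ℝ (η n) z‖) Filter.atTop (nhds 0))
    (h7 : ∀ n, Integrable fun z => wt P z * ‖fderiv ℝ (η n) z‖)
    (F : ℂ → ℂ) (hF : ∀ z ∉ P, ContDiffAt ℝ 1 F z) (C : ℝ)
    (hb : ∀ z ∉ P, ‖F z‖ ≤ C * wt P z) (hi : Integrable (dbar F)) : ∫ z, dbar F z = 0 := by
  have hae : ∀ᵐ z : ℂ, z ∉ P := by
    have : volume ((P : Set ℂ)) = 0 := P.finite_toSet.measure_zero _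
    exact measure_eq_zero_iff_ae_notMem.mp this
  have hG : ∀ n, ContDiff ℝ 1 (fun z => ((η n z : ℝ) : ℂ) * F z) := by
    intro n
    rw [contDiff_iff_contDiffAt]
    intro z
    by_cases hz : z ∈ P
    · have : (fun z => ((η n z : ℝ) : ℂ) * F z) =ᶠ[nhds z] fun _ => 0 := by
        filter_upwards [h4 n z hz] with w hw
        rw [hw]; simp
      exact contDiffAt_const.congr_of_eventuallyEq this
    · exact (Complex.ofRealCLM.contDiff.contDiffAt.comp z (h1 n).contDiffAt).mul (hF z hz)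
  have hGc : ∀ n, HasCompactSupport (fun z => ((η n z : ℝ) : ℂ) * F z) := by
    intro n
    have : HasCompactSupport (fun z => ((η n z : ℝ) : ℂ)) :=
      (h2 n).comp_left (g := fun x : ℝ => (x : ℂ)) (by simp)
    exact this.mul_right
  have hmeas : ∀ n, AEStronglyMeasurable (fun z => ((η n z : ℝ) : ℂ) * dbar F z) volume := fun n =>
    ((Complex.continuous_ofReal.comp (h1 n).continuous).aestronglyMeasurable).mul
      hi.aestronglyMeasurable
  have hbd : ∀ n z, ‖((η n z : ℝ) : ℂ) * dbar F z‖ ≤ ‖dbar F z‖ := by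
    intro n z
    rw [norm_mul, Complex.norm_real, Real.norm_eq_abs, abs_of_nonneg (h3 n z).1]
    exact mul_le_of_le_one_left (norm_nonneg _) (h3 n z).2
  have hint : ∀ n, Integrable (fun z => ((η n z : ℝ) : ℂ) * dbar F z) := fun n =>
    hi.norm.mono' (hmeas n) (Filter.Eventually.of_forall (hbd n))
  have hlim : Filter.Tendsto (fun n => ∫ z, ((η n z : ℝ) : ℂ) * dbar F z) Filter.atTop
      (nhds (∫ z, dbar F z)) := by
    refine tendsto_integral_of_dominated_convergence (fun z => ‖dbar F z‖) hmeas hi.norm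
      (fun n => Filter.Eventually.of_forall (hbd n)) ?_
    filter_upwards [hae] with z hz
    have := ((Complex.continuous_ofReal.tendsto 1).comp (h5 z hz)).mul_const (dbar F z)
    simpa using this
  have hsmall : Filter.Tendsto (fun n => ∫ z, ((η n z : ℝ) : ℂ) * dbar F z) Filter.atTop
      (nhds 0) := by
    refine squeeze_zero_norm (a := fun n => |C| * ∫ z, wt P z * ‖fderiv ℝ (η n) z‖) ?_ ?_
    · intro n
      obtain ⟨ha, hb'⟩ := dbar_cont _ (hG n) (hGc n)
      have e : ∫ z, ((η n z : ℝ) : ℂ) * dbar F z =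
          - ∫ z, (dbar (fun z => ((η n z : ℝ) : ℂ) * F z) z - ((η n z : ℝ) : ℂ) * dbar F z) := by
        rw [integral_sub ha (hint n), hb']; simp
      rw [e, norm_neg, ← integral_const_mul]
      refine norm_integral_le_of_norm_le ((h7 n).const_mul _) ?_
      filter_upwards [hae] with z hz
      refine (dbar_mul_bound (η n) F z ((h1 n).differentiable (by norm_num) z)
        ((hF z hz).differentiableAt (by norm_num))).trans ?_
      have hw : ‖F z‖ ≤ |C| * wt P z :=
        (hb z hz).trans (mul_le_mul_of_nonneg_right (le_abs_self C) (wt_nonneg P z))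
      calc ‖F z‖ * ‖fderiv ℝ (η n) z‖ ≤ (|C| * wt P z) * ‖fderiv ℝ (η n) z‖ :=
            mul_le_mul_of_nonneg_right hw (norm_nonneg _)
        _ = |C| * (wt P z * ‖fderiv ℝ (η n) z‖) := by ring
    · simpa using h6.const_mul |C|
  exact tendsto_nhds_unique hlim hsmall

end Pool.Agent.Helper66.L2
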